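import Pool.Agent.MP_650f93_lc.H98.Defs
import Pool.Agent.MP_650f93_lc.Mg.H47_Main

set_option autoImplicit false

namespace Pool.Agent.Results.MP_650f93_lc.MeasureUnion

open Pool.Agent.MP_650f93_lc.H98

/-- An increasing union of countable Borel equivalence relations, each of which is, for every Borel
probability measure, `α`-amenable on some conull Borel set for some countable `α ≥ 1`, is
`β`-amenable on the whole space for every countable `β ≥ 1`. -/
theorem result.{u} (π : ℕ × ℕ ≃ ℕ) (X : Type u) [MeasurableSpace X] [StandardBorelSpace X]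
    (E : ℕ → Setoid X) (hE : ∀ i, IsCBER (E i)) (hs : ∀ i x y, E i x y → E (i + 1) x y)
    (ha : ∀ (i : ℕ) (μ : MeasureTheory.Measure X), MeasureTheory.IsProbabilityMeasure μ →
      ∃ B : Set X, MeasurableSet B ∧ μ B = 1 ∧ ∃ (α : Ordinal.{0}) (F : Filter ℕ),
        IsIter π α F ∧ Amenable F ((E i).comap (Subtype.val : B → X))) :
    ∃ U : Setoid X, (∀ x y, U x y ↔ ∃ i, E i x y) ∧ IsCBER U ∧
      ∀ (β : Ordinal.{0}) (G : Filter ℕ), IsIter π β G → Amenable G U :=
  Pool.Agent.MP_650f93_lc.H47.main π X E hE hs ha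

end Pool.Agent.Results.MP_650f93_lc.MeasureUnion
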